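import Pool.Agent.N822.TO.Stm

set_option autoImplicit false

/-! # TO/FIN: choice of the scale -/

namespace Pool.Agent.N547.TO

open Pool.Agent.N822.TO

lemma q_succ (m : ℕ → ℕ) (n : ℕ) : q m (n + 1) = q m n * m n := by
  unfold q
  rw [Finset.prod_range_succ]

lemma sq_le (j : ℕ) : (j + 2) ^ 2 ≤ 2 * 2 ^ j + 20 := by
  rcases Nat.lt_or_ge j 3 with h | h
  · interval_cases j <;> norm_num
  · induction j, h using Nat.le_induction with
    | base => norm_num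
    | succ j hj ih =>
      have h1 : 2 * j + 5 ≤ 2 * 2 ^ j := by
        clear ih
        induction j, hj using Nat.le_induction with
        | base => norm_num
        | succ j hj ih => rw [pow_succ]; omega
      have h2 : (j + 1 + 2) ^ 2 = (j + 2) ^ 2 + (2 * j + 5) := by ring
      rw [h2, pow_succ 2 j]
      omega

lemma key (A j : ℕ) : (2 * A) ^ (j + 2) ≤ 2 ^ ((2 * A) ^ 2 + 10) * 2 ^ 2 ^ j := by
  have h1 : 2 * A ≤ 2 ^ (2 * A) := Nat.lt_two_pow_self.le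
  calc (2 * A) ^ (j + 2) ≤ (2 ^ (2 * A)) ^ (j + 2) := Nat.pow_le_pow_left h1 _
    _ = 2 ^ (2 * A * (j + 2)) := by rw [← pow_mul]
    _ ≤ 2 ^ (((2 * A) ^ 2 + 10) + 2 ^ j) := by
      apply Nat.pow_le_pow_right (by norm_num)
      have h2 := sq_le j
      have h3 : 2 * (2 * A * (j + 2)) ≤ (2 * A) ^ 2 + (j + 2) ^ 2 := by
        have := two_mul_le_add_sq (2 * A) (j + 2)
        linarith
      have h4 : 0 ≤ (2 * A) ^ 2 := Nat.zero_le _
      omega
    _ = _ := by rw [pow_add]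

lemma prod_le (A n : ℕ) : ∏ k ∈ Finset.range n, (A * (bb k + 1)) ≤ (2 * A) ^ n * 2 ^ 2 ^ n := by
  have h : (∏ k ∈ Finset.range n, (A * (bb k + 1))) * 2 ≤ (2 * A) ^ n * 2 ^ 2 ^ n := by
    induction n with
    | zero => simp
    | succ n ih =>
      rw [Finset.prod_range_succ]
      have h1 : bb n + 1 ≤ 2 * 2 ^ 2 ^ n := by
        unfold bb
        have : 1 ≤ 2 ^ 2 ^ n := Nat.one_le_two_pow
        omega
      calc (∏ k ∈ Finset.range n, (A * (bb k + 1))) * (A * (bb n + 1)) * 2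
          = ((∏ k ∈ Finset.range n, (A * (bb k + 1))) * 2) * (A * (bb n + 1)) := by ring
        _ ≤ ((2 * A) ^ n * 2 ^ 2 ^ n) * (A * (2 * 2 ^ 2 ^ n)) :=
          Nat.mul_le_mul ih (Nat.mul_le_mul_left _ h1)
        _ = (2 * A) ^ (n + 1) * 2 ^ 2 ^ (n + 1) := by
          rw [pow_succ 2 n, pow_mul 2 (2 ^ n) 2, pow_succ (2 * A)]
          ring
  have h2 : ∏ k ∈ Finset.range n, (A * (bb k + 1)) ≤
      (∏ k ∈ Finset.range n, (A * (bb k + 1))) * 2 := Nat.le_mul_of_pos_right _ (by norm_num)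
  exact h2.trans h

lemma q_ge (m : ℕ → ℕ) (hm : ∀ k, 2 ≤ m k) (n : ℕ) : 2 ^ n ≤ q m n := by
  unfold q
  calc 2 ^ n = ∏ k ∈ Finset.range n, 2 := by simp
    _ ≤ _ := Finset.prod_le_prod' fun k _ => hm k

theorem fin : S_FIN := by
  classical
  intro A
  set m : ℕ → ℕ := fun k => 2 ^ bb k with hm
  have hm2 : ∀ k, 2 ≤ m k := by
    intro k
    have h1 : 1 ≤ bb k := Nat.one_le_two_pow
    calc 2 = 2 ^ 1 := by norm_num
      _ ≤ 2 ^ bb k := Nat.pow_le_pow_right (by norm_num) h1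
  have hqpos : ∀ n, 0 < q m n := fun n => lt_of_lt_of_le (by positivity) (q_ge m hm2 n)
  refine ⟨32 * 2 ^ ((2 * A) ^ 2 + 10) + 3 * A + 1, by positivity, fun w hw hw1 => ?_⟩
  have hex : ∃ n, 1 / (q m n : ℝ) ≤ w := by
    obtain ⟨n, hn⟩ := exists_nat_ge (1 / w)
    refine ⟨n, ?_⟩
    rw [div_le_iff₀ (by exact_mod_cast hqpos n)]
    rw [div_le_iff₀ hw] at hn
    have h1 : (n : ℝ) ≤ q m n := by
      exact_mod_cast (Nat.lt_two_pow_self.le).trans (q_ge m hm2 n)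
    nlinarith
  have hlog : 0 ≤ Real.log (1 / w) := Real.log_nonneg (by rw [le_div_iff₀ hw]; linarith)
  have h5 : (1 : ℝ) ≤ (1 + Real.log (1 / w)) ^ 5 := one_le_pow₀ (by linarith)
  refine ⟨Nat.find hex, Nat.find_spec hex, ?_⟩
  have hmin : ∀ k < Nat.find hex, ¬ 1 / (q m k : ℝ) ≤ w := fun k hk => Nat.find_min hex hk
  generalize Nat.find hex = n at hmin
  rw [← Nat.cast_prod]
  rcases n with _ | _ | j
  · simp only [Finset.range_zero, Finset.prod_empty, Nat.cast_one]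
    have : (1 : ℝ) ≤ 32 * 2 ^ ((2 * A) ^ 2 + 10) + 3 * A + 1 := by
      have : (0 : ℝ) ≤ 32 * 2 ^ ((2 * A) ^ 2 + 10) + 3 * A := by positivity
      linarith
    nlinarith
  · have e : ∏ k ∈ Finset.range (0 + 1), (A * (bb k + 1)) = 3 * A := by
      simp [bb]
      ring
    rw [e]
    push_cast
    have : (3 * A : ℝ) ≤ 32 * 2 ^ ((2 * A) ^ 2 + 10) + 3 * A + 1 := by
      have : (0 : ℝ) ≤ 32 * 2 ^ ((2 * A) ^ 2 + 10) := by positivity
      linarith
    have h0 : (0 : ℝ) ≤ 32 * 2 ^ ((2 * A) ^ 2 + 10) + 3 * A + 1 := by positivity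
    nlinarith
  · have h1 := hmin (j + 1) (by omega)
    push Not at h1
    have h2 : (q m (j + 1) : ℝ) ≤ 1 / w := by
      rw [le_div_iff₀ hw]
      rw [lt_div_iff₀ (by exact_mod_cast hqpos (j + 1))] at h1
      linarith
    have h3 : ((2 : ℝ) ^ bb j) ≤ q m (j + 1) := by
      have : m j ≤ q m (j + 1) := by
        rw [q_succ]
        exact Nat.le_mul_of_pos_left _ (hqpos j)
      exact_mod_cast this
    have h4 : (bb j : ℝ) / 2 ≤ Real.log (1 / w) := by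
      have h6 := Real.log_le_log (by positivity) (h3.trans h2)
      rw [Real.log_pow] at h6
      have h7 := Real.log_two_gt_d9
      have h8 : (0 : ℝ) ≤ bb j := Nat.cast_nonneg _
      nlinarith
    have h6 : ((bb j : ℝ) / 2) ^ 5 ≤ (1 + Real.log (1 / w)) ^ 5 := by
      apply pow_le_pow_left₀ (by positivity)
      linarith
    have h7 : ((∏ k ∈ Finset.range (j + 1 + 1), (A * (bb k + 1)) : ℕ) : ℝ) ≤
        32 * 2 ^ ((2 * A) ^ 2 + 10) * ((bb j : ℝ) / 2) ^ 5 := by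
      have h8 := (prod_le A (j + 2)).trans (Nat.mul_le_mul_right _ (key A j))
      have h9 : ((∏ k ∈ Finset.range (j + 1 + 1), (A * (bb k + 1)) : ℕ) : ℝ) ≤
          2 ^ ((2 * A) ^ 2 + 10) * 2 ^ 2 ^ j * 2 ^ 2 ^ (j + 2) := by
        exact_mod_cast h8
      refine h9.trans (le_of_eq ?_)
      unfold bb
      push_cast
      rw [pow_add 2 j 2, pow_mul (2 : ℝ) (2 ^ j)]
      ring
    calc ((∏ k ∈ Finset.range (j + 1 + 1), (A * (bb k + 1)) : ℕ) : ℝ)
        ≤ 32 * 2 ^ ((2 * A) ^ 2 + 10) * ((bb j : ℝ) / 2) ^ 5 := h7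
      _ ≤ 32 * 2 ^ ((2 * A) ^ 2 + 10) * (1 + Real.log (1 / w)) ^ 5 := by gcongr
      _ ≤ (32 * 2 ^ ((2 * A) ^ 2 + 10) + 3 * A + 1) * (1 + Real.log (1 / w)) ^ 5 := by
        gcongr
        have : (0 : ℝ) ≤ 3 * A := by positivity
        linarith

end Pool.Agent.N547.TO
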