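import Pool.Agent.N822.TO.Stm

set_option autoImplicit false

/-! # TO/HAUS: upper bound for the Hausdorff measure by counting cells -/

namespace Pool.Agent.N547.TO.Haus

open Pool.Agent.N822.TO MeasureTheory Filter Topology

lemma q_succ (m : ℕ → ℕ) (n : ℕ) : q m (n + 1) = q m n * m n := by
  unfold q
  rw [Finset.prod_range_succ]

lemma q_ge (m : ℕ → ℕ) (hm : ∀ k, 2 ≤ m k) (n : ℕ) : 2 ^ n ≤ q m n := by
  unfold q
  calc 2 ^ n = ∏ k ∈ Finset.range n, 2 := by simp
    _ ≤ _ := Finset.prod_le_prod' fun k _ => hm k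

variable {D : ℕ} {m : ℕ → ℕ} (f : (k : ℕ) → (Fin D → Fin (m k)) → Fin (m k))

lemma pt_nonneg {m : ℕ} (f : (Fin D → Fin m) → Fin m) (i : Fin D → Fin m) (t : Fin (D + 1)) :
    0 ≤ pt f i t := by
  unfold pt
  refine Fin.cases ?_ (fun t => ?_) t
  · rw [Fin.cons_zero]; positivity
  · rw [Fin.cons_succ]; positivity

lemma pt_le {m : ℕ} (f : (Fin D → Fin m) → Fin m) (i : Fin D → Fin m) (t : Fin (D + 1)) :
    pt f i t ≤ (m : ℝ) - 1 := by
  have key : ∀ a : Fin m, ((a : ℕ) : ℝ) ≤ (m : ℝ) - 1 := by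
    intro a
    have h1 : (a : ℕ) + 1 ≤ m := a.2
    have h2 : ((a : ℕ) : ℝ) + 1 ≤ m := by exact_mod_cast h1
    linarith
  unfold pt
  refine Fin.cases ?_ (fun t => ?_) t
  · rw [Fin.cons_zero]; exact key _
  · rw [Fin.cons_succ]; exact key _

lemma term_le (hm : ∀ k, 2 ≤ m k) (k : ℕ) (i : Fin D → Fin (m k)) (t : Fin (D + 1)) :
    pt (f k) i t / (q m (k + 1) : ℝ) ≤ 1 / (q m k : ℝ) - 1 / (q m (k + 1) : ℝ) := by
  have h0 : (0 : ℝ) < q m k := by
    exact_mod_cast lt_of_lt_of_le (by positivity) (q_ge m hm k)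
  have h1 : (0 : ℝ) < m k := by
    have := hm k
    exact_mod_cast (by omega : 0 < m k)
  have h2 := pt_le (f k) i t
  have e : (q m (k + 1) : ℝ) = q m k * m k := by rw [q_succ]; push_cast; rfl
  rw [e]
  have e2 : (1 : ℝ) / q m k - 1 / (q m k * m k) = (m k - 1) / (q m k * m k) := by
    field_simp
  rw [e2]
  gcongr

lemma term_nonneg (k : ℕ) (i : Fin D → Fin (m k)) (t : Fin (D + 1)) :
    0 ≤ pt (f k) i t / (q m (k + 1) : ℝ) :=
  div_nonneg (pt_nonneg _ _ _) (Nat.cast_nonneg _)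

lemma sum_le (hm : ∀ k, 2 ≤ m k) (a : Dig D m) (t : Fin (D + 1)) (n N : ℕ) :
    ∑ k ∈ Finset.range N, pt (f (k + n)) (a (k + n)) t / (q m (k + n + 1) : ℝ) ≤
      1 / (q m n : ℝ) - 1 / (q m (N + n) : ℝ) := by
  induction N with
  | zero => simp
  | succ N ih =>
    rw [Finset.sum_range_succ]
    have h := term_le f hm (N + n) (a (N + n)) t
    have e : N + 1 + n = N + n + 1 := by ring
    rw [e]
    linarith

lemma phi_mem (hm : ∀ k, 2 ≤ m k) (a : Dig D m) (n : ℕ) :
    phi f a ∈ cell f (n := n) (fun k => a k) := by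
  intro t
  set u : ℕ → ℝ := fun k => pt (f k) (a k) t / (q m (k + 1) : ℝ) with hu
  have hu0 : ∀ k, 0 ≤ u k := fun k => term_nonneg f k _ t
  have hq0 : ∀ k, (0 : ℝ) ≤ 1 / (q m k : ℝ) := fun k => by positivity
  have hs : Summable u := by
    apply summable_of_sum_range_le hu0 (c := 1 / (q m 0 : ℝ))
    intro N
    have h : ∑ i ∈ Finset.range N, u i ≤ 1 / (q m 0 : ℝ) - 1 / (q m (N + 0) : ℝ) :=
      sum_le f hm a t 0 N
    have h2 := hq0 (N + 0)
    linarith
  have h1 : phi f a t = ∑' k, u k := rfl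
  have h2 : corner f (n := n) (fun k => a k) t = ∑ k ∈ Finset.range n, u k := by
    unfold corner
    rw [← Fin.sum_univ_eq_sum_range u n]
  have h3 := hs.sum_add_tsum_nat_add n
  have h4 : 0 ≤ ∑' k, u (k + n) := tsum_nonneg fun k => hu0 _
  have h5 : ∑' k, u (k + n) ≤ 1 / (q m n : ℝ) := by
    apply Real.tsum_le_of_sum_range_le (fun k => hu0 _)
    intro N
    have h := sum_le f hm a t n N
    have h2 := hq0 (N + n)
    have h6 : ∑ k ∈ Finset.range N, u (k + n) =
      ∑ k ∈ Finset.range N, pt (f (k + n)) (a (k + n)) t / (q m (k + n + 1) : ℝ) := rfl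
    rw [h6]
    linarith
  rw [h1, h2, ← h3]
  constructor <;> linarith

/-- restriction of a prefix -/
def res {n : ℕ} (p : Pre D m (n + 1)) : Pre D m n := fun k => p k.castSucc

lemma corner_res {n : ℕ} (p : Pre D m (n + 1)) (t : Fin (D + 1)) :
    corner f p t = corner f (res p) t + pt (f n) (p (Fin.last n)) t / (q m (n + 1) : ℝ) := by
  unfold corner
  rw [Fin.sum_univ_castSucc]
  rfl

lemma cell_res (hm : ∀ k, 2 ≤ m k) {n : ℕ} (p : Pre D m (n + 1)) : cell f p ⊆ cell f (res p) := by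
  intro x hx t
  obtain ⟨h1, h2⟩ := hx t
  rw [corner_res] at h1 h2
  have h3 := term_nonneg f n (p (Fin.last n)) t
  have h4 := term_le f hm n (p (Fin.last n)) t
  constructor <;> linarith

lemma card_step (hm : ∀ k, 2 ≤ m k) (S : Set (E (D + 1))) (n : ℕ) :
    Nat.card {p : Pre D m (n + 1) // (cell f p ∩ S).Nonempty} ≤
      Nat.card {p : Pre D m n // (cell f p ∩ S).Nonempty} * (m n) ^ D := by
  classical
  let F : {p : Pre D m (n + 1) // (cell f p ∩ S).Nonempty} →
      {p : Pre D m n // (cell f p ∩ S).Nonempty} × (Fin D → Fin (m n)) := fun p =>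
    (⟨res p.1, p.2.mono (Set.inter_subset_inter_left _ (cell_res f hm p.1))⟩, p.1 (Fin.last n))
  have hF : Function.Injective F := by
    intro p p' h
    have h1 : res p.1 = res p'.1 := congrArg Subtype.val (congrArg Prod.fst h)
    have h2 : p.1 (Fin.last n) = p'.1 (Fin.last n) := congrArg Prod.snd h
    apply Subtype.ext
    funext k
    refine Fin.lastCases h2 (fun k => ?_) k
    exact congrFun h1 k
  have h := Nat.card_le_card_of_injective F hF
  rw [Nat.card_prod] at h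
  refine h.trans (le_of_eq ?_)
  congr 1
  rw [Nat.card_eq_fintype_card, Fintype.card_fun, Fintype.card_fin, Fintype.card_fin]

lemma card_le (hm : ∀ k, 2 ≤ m k) (S : Set (E (D + 1))) (n j : ℕ) :
    Nat.card {p : Pre D m (n + j) // (cell f p ∩ S).Nonempty} * (q m n) ^ D ≤
      Nat.card {p : Pre D m n // (cell f p ∩ S).Nonempty} * (q m (n + j)) ^ D := by
  induction j with
  | zero => exact le_rfl
  | succ j ih =>
    have h1 := card_step f hm S (n + j)
    have h2 : q m (n + (j + 1)) = q m (n + j) * m (n + j) := q_succ m (n + j)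
    rw [h2, mul_pow]
    calc Nat.card {p : Pre D m (n + j + 1) // (cell f p ∩ S).Nonempty} * (q m n) ^ D
        ≤ (Nat.card {p : Pre D m (n + j) // (cell f p ∩ S).Nonempty} * (m (n + j)) ^ D) *
          (q m n) ^ D := Nat.mul_le_mul_right _ h1
      _ = (Nat.card {p : Pre D m (n + j) // (cell f p ∩ S).Nonempty} * (q m n) ^ D) *
          (m (n + j)) ^ D := by ring
      _ ≤ (Nat.card {p : Pre D m n // (cell f p ∩ S).Nonempty} * (q m (n + j)) ^ D) *
          (m (n + j)) ^ D := Nat.mul_le_mul_right _ ih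
      _ = _ := by ring

lemma diam_cell {n : ℕ} (p : Pre D m n) :
    Metric.ediam (cell f p) ≤ ENNReal.ofReal (Real.sqrt (D + 1) / (q m n : ℝ)) := by
  apply Metric.ediam_le
  intro x hx y hy
  rw [edist_dist]
  apply ENNReal.ofReal_le_ofReal
  rw [EuclideanSpace.dist_eq]
  have h0 : (0 : ℝ) ≤ 1 / (q m n : ℝ) := by positivity
  have h1 : ∑ i, dist (x i) (y i) ^ 2 ≤ (D + 1) * (1 / (q m n : ℝ)) ^ 2 := by
    calc ∑ i, dist (x i) (y i) ^ 2 ≤ ∑ _i : Fin (D + 1), (1 / (q m n : ℝ)) ^ 2 := by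
          refine Finset.sum_le_sum fun i _ => ?_
          apply pow_le_pow_left₀ dist_nonneg
          rw [Real.dist_eq, abs_le]
          obtain ⟨a1, a2⟩ := hx i
          obtain ⟨b1, b2⟩ := hy i
          constructor <;> linarith
      _ = _ := by
          rw [Finset.sum_const, Finset.card_univ, Fintype.card_fin, nsmul_eq_mul]
          push_cast
          rfl
  refine (Real.sqrt_le_sqrt h1).trans (le_of_eq ?_)
  rw [Real.sqrt_mul (by positivity), Real.sqrt_sq h0]
  ring

theorem haus : S_HAUS := by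
  classical
  intro D m f hD hm S n N hN
  have hqpos : ∀ k, (0 : ℝ) < q m k := fun k => by
    exact_mod_cast lt_of_lt_of_le (by positivity) (q_ge m hm k)
  set ι : ℕ → Type := fun n' => {p : Pre D m n' // (cell f p ∩ S).Nonempty} with hι
  let _ : ∀ n', Fintype (ι n') := fun n' => Fintype.ofFinite _
  set r : ℕ → ENNReal := fun n' => ENNReal.ofReal (Real.sqrt (D + 1) / (q m n' : ℝ)) with hr
  have hrt : Tendsto r atTop (𝓝 0) := by
    rw [← ENNReal.ofReal_zero]
    apply ENNReal.tendsto_ofReal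
    apply Tendsto.div_atTop tendsto_const_nhds
    apply tendsto_atTop_mono (f := fun n : ℕ => (2 : ℝ) ^ n) ?_
      (tendsto_pow_atTop_atTop_of_one_lt (by norm_num))
    intro k
    exact_mod_cast q_ge m hm k
  have h := Measure.hausdorffMeasure_le_liminf_sum (ι := ι) (D : ℝ) (Kset f ∩ S) (l := atTop) r hrt
    (fun n' p => cell f p.1) (Eventually.of_forall fun n' p => diam_cell f p.1)
    (Eventually.of_forall fun n' => by
      rintro x ⟨⟨a, rfl⟩, hxS⟩
      rw [Set.mem_iUnion]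
      exact ⟨⟨fun k => a k, ⟨_, phi_mem f hm a n', hxS⟩⟩, phi_mem f hm a n'⟩)
  refine h.trans ?_
  apply liminf_le_of_frequently_le'
  apply Eventually.frequently
  filter_upwards [eventually_ge_atTop n] with n' hn'
  obtain ⟨j, rfl⟩ := Nat.exists_eq_add_of_le hn'
  have h1 : ∀ p : ι (n + j), Metric.ediam (cell f p.1) ^ (D : ℝ) ≤
      ENNReal.ofReal ((Real.sqrt (D + 1) / (q m (n + j) : ℝ)) ^ D) := by
    intro p
    rw [ENNReal.rpow_natCast, ENNReal.ofReal_pow (by positivity)]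
    exact pow_le_pow_left₀ (by positivity) (diam_cell f p.1) D
  refine (Finset.sum_le_sum fun p _ => h1 p).trans ?_
  rw [Finset.sum_const, Finset.card_univ, ← Nat.card_eq_fintype_card, nsmul_eq_mul,
    ← ENNReal.ofReal_natCast, ← ENNReal.ofReal_mul (Nat.cast_nonneg _)]
  apply ENNReal.ofReal_le_ofReal
  have h2 := card_le f hm S n j
  have h3 : (Nat.card (ι (n + j)) : ℝ) * (q m n : ℝ) ^ D ≤
      (Nat.card (ι n) : ℝ) * (q m (n + j) : ℝ) ^ D := by exact_mod_cast h2
  have h4 : (Nat.card (ι (n + j)) : ℝ) * (Real.sqrt (D + 1) / (q m (n + j) : ℝ)) ^ D ≤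
      (Nat.card (ι n) : ℝ) * (Real.sqrt (D + 1) / (q m n : ℝ)) ^ D := by
    rw [div_pow, div_pow, ← mul_div_assoc, ← mul_div_assoc,
      div_le_div_iff₀ (pow_pos (hqpos _) _) (pow_pos (hqpos _) _)]
    have h5 : (0 : ℝ) ≤ Real.sqrt (D + 1) ^ D := by positivity
    nlinarith
  refine h4.trans ?_
  have h6 : (Nat.card (ι n) : ℝ) ≤ N := hN
  gcongr

end Pool.Agent.N547.TO.Haus
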